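import Pool.Agent.Q14.WSGeom

/-!
MP_c789b2_co, Q2: every interior point of the triangle lies on at most `d + 1` lines of the
Wang-Shi split `WS_d`.
-/

namespace Pool.Agent.Results.MP_c789b2_co.DegreeBound

open Pool.Agent.Q14.WS

/-- For every `d ≥ 2`, every (non-degenerate) triangle `V` in the plane and every interior point
`p` of the triangle, at most `d + 1` lines of the Wang-Shi split `WS_d` pass through `p`. -/
theorem result (d : ℕ) (hd : 2 ≤ d) (V : Fin 3 → E2) (hV : AffineIndependent ℝ V) (p : E2)
    (hp : p ∈ interior (convexHull ℝ (Set.range V))) : degree d V p ≤ (d + 1 : ℕ) :=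
  degree_le (by omega) V hV hp

end Pool.Agent.Results.MP_c789b2_co.DegreeBound
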